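import Pool.Agent.Lib.EMU.A.Maps

/-!
# MP_9aab3b_gt, module A.Alg: suspension, inclusion and action commute

PROOF. All statements are checked on `∞` (trivial: `OnePoint.map_infty`, `OnePoint.elim`) and on finite points, where they are equalities of pairs
(projection, vector) in `Taut` (`Subtype.ext`, `Prod.ext`, `ContinuousLinearMap.ext`, evaluate at `v` and at `p = (index, h)`; split
the index: `Fin.lastCases` for `Fin (k+1)`, `Sum` cases).
`act` commutes with `res`, `ext`, `blk` (it permutes only the coordinate in `G`): `act g (res φ v) = res φ (act g v)` is `rfl`-like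
(`act_apply`, `res_apply`); for `ext` use `ext_apply`, `ext_apply_not` or unfold: `(ext φ v) (a', h)` depends on `h` only through `v (a, h)`.
`suspF_equi`: `suspF f (sphAct g x) = thomAct g (suspF f x)` for equivariant `f`; the projection: `e (g P g⁻¹) r + blk = g (e P r + blk) g⁻¹`.
`susp_incl_comm`: both sides give the projection `e P r + blk {inl last}` for the same `e`, `r` (the two compositions of `upS` and `upI` are equal
as maps, `Sum.map`), in particular `ext (upI) (blk B v) = blk B' (ext (upI) v)` with `B = {inl last}`.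
-/

set_option autoImplicit false

open scoped Topology OnePoint

namespace EMU

variable {G : Type} [Group G] [Fintype G] {a b k j : ℕ}

theorem act_res {A A' : Type} [Fintype A] [Fintype A'] (φ : A → A') (g : G) (v : Rg G A') :
    act g (res φ v) = res φ (act g v) := by
  ext p
  rfl

theorem act_ext {A A' : Type} [Fintype A] [Fintype A'] (φ : A → A') (g : G) (v : Rg G A) :
    act g (ext φ v) = ext φ (act g v) := by
  ext p
  rfl

theorem act_blk {A : Type} [Fintype A] (B : Set A) (g : G) (v : Rg G A) :
    act g (blk B v) = blk B (act g v) := by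
  ext p
  rfl

private theorem act_inv {A : Type} [Fintype A] (g : G) (v : Rg G A) :
    act g (act g⁻¹ v) = v := by
  rw [← act_mul, mul_inv_cancel, act_one]

private theorem stabTaut_act {A A' : Type} [Fintype A] [Fintype A'] {φ : A → A'}
    (hφ : Function.Injective φ) {B : Set A'} (hB : ∀ a, φ a ∉ B) {m m' : ℕ}
    (hm : m' = m + Nat.card B * Fintype.card G) (g : G) (y : Taut (Rg G A) m) (w : Rg G A') :
    stabTaut hφ hB hm (tautAct g y) (act g w) = tautAct g (stabTaut hφ hB hm y w) := by
  apply Subtype.ext
  refine Prod.ext ?_ ?_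
  · refine ContinuousLinearMap.ext fun v => ?_
    show ext φ (act g (y.1.1 (act g⁻¹ (res φ v)))) + blk B v =
      act g (ext φ (y.1.1 (res φ (act g⁻¹ v))) + blk B (act g⁻¹ v))
    rw [map_add, act_ext, act_blk, act_inv, act_res]
  · show ext φ (act g y.1.2) + blk B (act g w) = act g (ext φ y.1.2 + blk B w)
    rw [map_add, act_ext, act_blk]

theorem suspF_equi {f : Sph G a k → Thom (Rg G (Fin k ⊕ Fin j)) (k * Fintype.card G + b)}
    {g : G} (hf : ∀ x, f (sphAct g x) = thomAct g (f x)) (x : Sph G a (k + 1)) :
    suspF f (sphAct g x) = thomAct g (suspF f x) := by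
  induction x using OnePoint.rec with
  | infty => rfl
  | coe p =>
    have h1 := hf (((res Fin.castSucc p.1, p.2) : Rg G (Fin k) × EuclideanSpace ℝ (Fin a)) :
      Sph G a k)
    have h2 : suspF f (sphAct g (p : Sph G a (k + 1))) = OnePoint.map
        (fun y => stabTaut (upS_inj k j) (upS_not_mem k j) (dimS (Fintype.card G) k j b) y
        (ext Sum.inl (act g p.1))) (f (sphAct g (((res Fin.castSucc p.1, p.2) :
          Rg G (Fin k) × EuclideanSpace ℝ (Fin a)) : Sph G a k))) := by
      have h3 : sphAct g (((res Fin.castSucc p.1, p.2) :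
          Rg G (Fin k) × EuclideanSpace ℝ (Fin a)) : Sph G a k) =
          (((res Fin.castSucc (act g p.1), p.2) :
          Rg G (Fin k) × EuclideanSpace ℝ (Fin a)) : Sph G a k) := by
        rw [← act_res]
        rfl
      rw [h3]
      rfl
    rw [h2, h1]
    have h4 : suspF f (p : Sph G a (k + 1)) = OnePoint.map
        (fun y => stabTaut (upS_inj k j) (upS_not_mem k j) (dimS (Fintype.card G) k j b) y
        (ext Sum.inl p.1)) (f (((res Fin.castSucc p.1, p.2) :
          Rg G (Fin k) × EuclideanSpace ℝ (Fin a)) : Sph G a k)) := rfl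
    rw [h4]
    generalize f (((res Fin.castSucc p.1, p.2) :
          Rg G (Fin k) × EuclideanSpace ℝ (Fin a)) : Sph G a k) = z
    induction z using OnePoint.rec with
    | infty => rfl
    | coe y =>
      have h5 := stabTaut_act (upS_inj k j) (upS_not_mem k j) (dimS (Fintype.card G) k j b) g y
        (ext Sum.inl p.1)
      rw [act_ext] at h5
      exact congrArg OnePoint.some h5

theorem inclF_equi {f : Sph G a k → Thom (Rg G (Fin k ⊕ Fin j)) (k * Fintype.card G + b)}
    {g : G} (hf : ∀ x, f (sphAct g x) = thomAct g (f x)) (x : Sph G a k) :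
    inclF f (sphAct g x) = thomAct g (inclF f x) := by
  unfold inclF
  rw [hf]
  generalize f x = z
  induction z using OnePoint.rec with
  | infty => rfl
  | coe y =>
    have h5 := stabTaut_act (upI_inj k j) (upI_not_mem k j) (dimI (Fintype.card G) k j b) g y 0
    rw [map_zero] at h5
    exact congrArg OnePoint.some h5

private theorem upS_upI (i : Fin k ⊕ Fin j) : upS k (j + 1) (upI k j i) = upI (k + 1) j (upS k j i) := by
  rcases i with i | i <;> rfl

omit [Group G] in
private theorem ext_ext {A A' A'' : Type} [Fintype A] [Fintype A'] [Fintype A''] {φ : A → A'}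
    {φ' : A' → A''} (hφ : Function.Injective φ) (hφ' : Function.Injective φ') (v : Rg G A) :
    ext φ' (ext φ v) = ext (φ' ∘ φ) v := by
  ext p
  obtain ⟨i, h⟩ := p
  by_cases h1 : ∃ a', φ' a' = i
  · obtain ⟨a', rfl⟩ := h1
    rw [ext_apply hφ']
    by_cases h2 : ∃ a, φ a = a'
    · obtain ⟨a, rfl⟩ := h2
      rw [ext_apply hφ]
      exact (ext_apply (hφ'.comp hφ) v a h).symm
    · rw [ext_apply_not v h2, ext_apply_not]
      rintro ⟨a, ha⟩
      exact h2 ⟨a, hφ' ha⟩
  · rw [ext_apply_not _ h1, ext_apply_not]
    rintro ⟨a, ha⟩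
    exact h1 ⟨φ a, ha⟩

omit [Group G] in
private theorem ext_blk (u : Rg G (Fin (k + 1) ⊕ Fin j)) (u' : Rg G (Fin (k + 1) ⊕ Fin (j + 1)))
    (h : ∀ i g, u (Sum.inl i, g) = u' (Sum.inl i, g)) :
    ext (upI (k + 1) j) (blk {Sum.inl (Fin.last k)} u) = blk {Sum.inl (Fin.last k)} u' := by
  ext p
  obtain ⟨i, g⟩ := p
  rcases i with i | i
  · have h1 := ext_apply (upI_inj (k + 1) j) (blk {Sum.inl (Fin.last k)} u) (Sum.inl i) g
    refine Eq.trans h1 ?_
    by_cases hi : i = Fin.last k
    · subst hi
      rw [blk_apply_mem _ (by simp), blk_apply_mem _ (by simp), h]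
    · rw [blk_apply_not_mem _ (by simp [hi]), blk_apply_not_mem _ (by simp [hi])]
  · have h0 : blk {Sum.inl (Fin.last k)} u' (Sum.inr i, g) = 0 :=
      blk_apply_not_mem _ (by simp)
    rw [h0]
    by_cases h1 : ∃ a, upI (k + 1) j a = Sum.inr i
    · obtain ⟨a, ha⟩ := h1
      rw [← ha, ext_apply (upI_inj (k + 1) j)]
      rcases a with a | a
      · simp [upI] at ha
      · exact blk_apply_not_mem _ (by simp)
    · exact ext_apply_not _ h1 g

omit [Group G] in
private theorem blk_empty {A : Type} [Fintype A] (v : Rg G A) : blk (∅ : Set A) v = 0 := by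
  ext p
  exact blk_apply_not_mem v (by simp)

theorem susp_incl_comm (f : Sph G a k → Thom (Rg G (Fin k ⊕ Fin j)) (k * Fintype.card G + b)) :
    suspF (inclF f) = inclF (suspF f) := by
  funext x
  induction x using OnePoint.rec with
  | infty => rfl
  | coe p =>
    have h1 : suspF (inclF f) (p : Sph G a (k + 1)) = OnePoint.map
        (fun y => stabTaut (upS_inj k (j + 1)) (upS_not_mem k (j + 1))
          (dimS (Fintype.card G) k (j + 1) b) y (ext Sum.inl p.1)) (OnePoint.map
        (fun y => stabTaut (upI_inj k j) (upI_not_mem k j) (dimI (Fintype.card G) k j b) y 0)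
        (f (((res Fin.castSucc p.1, p.2) : Rg G (Fin k) × EuclideanSpace ℝ (Fin a)) :
          Sph G a k))) := rfl
    have h2 : inclF (suspF f) (p : Sph G a (k + 1)) = OnePoint.map
        (fun y => stabTaut (upI_inj (k + 1) j) (upI_not_mem (k + 1) j)
          (dimI (Fintype.card G) (k + 1) j b) y 0) (OnePoint.map
        (fun y => stabTaut (upS_inj k j) (upS_not_mem k j) (dimS (Fintype.card G) k j b) y
          (ext Sum.inl p.1))
        (f (((res Fin.castSucc p.1, p.2) : Rg G (Fin k) × EuclideanSpace ℝ (Fin a)) :
          Sph G a k))) := rfl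
    rw [h1, h2]
    generalize f (((res Fin.castSucc p.1, p.2) :
          Rg G (Fin k) × EuclideanSpace ℝ (Fin a)) : Sph G a k) = z
    induction z using OnePoint.rec with
    | infty => rfl
    | coe y =>
      have hcomp : upS k (j + 1) ∘ upI k j = upI (k + 1) j ∘ upS k j := funext upS_upI
      have key : stabTaut (upS_inj k (j + 1)) (upS_not_mem k (j + 1))
          (dimS (Fintype.card G) k (j + 1) b) (stabTaut (upI_inj k j) (upI_not_mem k j)
            (dimI (Fintype.card G) k j b) y 0) (ext Sum.inl p.1) =
          stabTaut (upI_inj (k + 1) j) (upI_not_mem (k + 1) j)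
          (dimI (Fintype.card G) (k + 1) j b) (stabTaut (upS_inj k j) (upS_not_mem k j)
            (dimS (Fintype.card G) k j b) y (ext Sum.inl p.1)) 0 := by
        apply Subtype.ext
        refine Prod.ext ?_ ?_
        · refine ContinuousLinearMap.ext fun w => ?_
          show ext (upS k (j + 1)) (ext (upI k j) (y.1.1 (res (upI k j) (res (upS k (j + 1)) w))) +
              blk ∅ (res (upS k (j + 1)) w)) + blk {Sum.inl (Fin.last k)} w =
            ext (upI (k + 1) j) (ext (upS k j) (y.1.1 (res (upS k j) (res (upI (k + 1) j) w))) +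
              blk {Sum.inl (Fin.last k)} (res (upI (k + 1) j) w)) + blk ∅ w
          have h3 : res (upI k j) (res (upS k (j + 1)) w) = res (upS k j) (res (upI (k + 1) j) w) := by
            ext q
            show w (upS k (j + 1) (upI k j q.1), q.2) = w (upI (k + 1) j (upS k j q.1), q.2)
            rw [upS_upI]
          rw [blk_empty, blk_empty, add_zero, add_zero, map_add, h3,
            ext_ext (upI_inj k j) (upS_inj k (j + 1)), ext_ext (upS_inj k j) (upI_inj (k + 1) j),
            hcomp, ext_blk _ w fun _ _ => rfl]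
        · show ext (upS k (j + 1)) (ext (upI k j) y.1.2 + blk ∅ 0) +
              blk {Sum.inl (Fin.last k)} (ext Sum.inl p.1) =
            ext (upI (k + 1) j) (ext (upS k j) y.1.2 +
              blk {Sum.inl (Fin.last k)} (ext Sum.inl p.1)) + blk ∅ 0
          rw [map_zero, map_zero, add_zero, add_zero, map_add,
            ext_ext (upI_inj k j) (upS_inj k (j + 1)), ext_ext (upS_inj k j) (upI_inj (k + 1) j),
            hcomp, ext_blk _ (ext Sum.inl p.1) fun i g => by
              rw [ext_apply Sum.inl_injective, ext_apply Sum.inl_injective]]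
      exact congrArg OnePoint.some key

end EMU
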