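import Pool.Agent.Lib.EMU.A.Rep

/-!
# MP_9aab3b_gt, module A.ThomTop: topology of the Thom space

PROOF. `isCompact_taut`: the set of pairs `(P, u)` with `IsTaut m` is closed in `(E →L[ℂ] E) × E` : idempotent, symmetric and `P u = u` are closed
conditions, and for such `P` the rank is the trace (`LinearMap.IsProj`/`IsIdempotentElem` trace formula), a continuous function with natural values
(so `{rank = m} = {trace = m}` is closed). For an orthogonal projection `‖P‖ ≤ 1` (`‖P v‖^2 = ⟪P v, v⟫ ≤ ‖P v‖ ‖v‖`). So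
`{(P,u) | IsTaut m, ‖u‖ ≤ R}` is closed and bounded in a finite dimensional space: compact; transport to the subtype
(`Topology.IsInducing.isCompact_preimage` / `IsClosedEmbedding`).
`taut_t2` (instances): a subtype of a Hausdorff space; the subtype of a closed subset of a proper space is locally compact.
`continuousAt_thom_infty`: `f` is continuous at `y` with `f y = ∞` if for every `R` eventually `f z = ∞` or `f z = (P, u)` with `‖u‖ > R`: a
neighbourhood of `∞` contains the complement of a closed compact set `C` of `Taut E m` (`OnePoint.nhds_infty_eq`/`OnePoint.continuousAt...`,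
`OnePoint.tendsto_nhds_infty`), on which `‖u‖` is bounded (continuous function on a compact set).
`continuous_thom_norm`: the function `OnePoint → ℝ`, `∞ ↦ 0`, `(P, u) ↦ 1 / (1 + ‖u‖)` is continuous (at `∞` because
`{1/(1+‖u‖) ≥ ε}` is a compact closed set).
-/

set_option autoImplicit false

open scoped Topology OnePoint
open Filter

namespace EMU

variable {E : Type} [NormedAddCommGroup E] [InnerProductSpace ℂ E] {m : ℕ}

instance taut_t2 : T2Space (Taut E m) :=
  inferInstanceAs (T2Space {x : (E →L[ℂ] E) × E // IsTaut m x})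

private theorem isClosed_taut [FiniteDimensional ℂ E] :
    IsClosed {x : (E →L[ℂ] E) × E | IsTaut m x} := by
  have htr : Continuous fun x : (E →L[ℂ] E) × E => LinearMap.trace ℂ E (x.1 : E →ₗ[ℂ] E) := by
    have h1 : Continuous (LinearMap.trace ℂ E ∘ₗ
        (ContinuousLinearMap.coeLM ℂ : (E →L[ℂ] E) →ₗ[ℂ] (E →ₗ[ℂ] E))) :=
      LinearMap.continuous_of_finiteDimensional _
    exact h1.comp continuous_fst
  have hset : {x : (E →L[ℂ] E) × E | IsTaut m x} =
      (⋂ v, {x | x.1 (x.1 v) = x.1 v}) ∩
        ((⋂ v, ⋂ w, {x | inner ℂ (x.1 v) w = inner ℂ v (x.1 w)}) ∩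
          ({x | LinearMap.trace ℂ E (x.1 : E →ₗ[ℂ] E) = (m : ℂ)} ∩ {x | x.1 x.2 = x.2})) := by
    have hrk : ∀ P : E →L[ℂ] E, (∀ v, P (P v) = P v) →
        LinearMap.trace ℂ E (P : E →ₗ[ℂ] E) =
          (Module.finrank ℂ (LinearMap.range (P : E →ₗ[ℂ] E)) : ℂ) := by
      intro P hP
      have h1 : LinearMap.IsProj (LinearMap.range (P : E →ₗ[ℂ] E)) (P : E →ₗ[ℂ] E) :=
        ⟨fun x => ⟨x, rfl⟩, fun x hx => by
          obtain ⟨y, hy⟩ := hx
          rw [← hy]
          exact hP y⟩
      exact h1.trace
    ext x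
    simp only [Set.mem_inter_iff, Set.mem_iInter]
    constructor
    · intro h
      refine ⟨h.idem, h.symm, ?_, h.mem⟩
      have h1 := h.rank
      change LinearMap.trace ℂ E (x.1 : E →ₗ[ℂ] E) = (m : ℂ)
      rw [hrk x.1 h.idem, h1]
    · rintro ⟨h1, h2, h3, h4⟩
      refine ⟨h1, h2, ?_, h4⟩
      have h5 : LinearMap.trace ℂ E (x.1 : E →ₗ[ℂ] E) = (m : ℂ) := h3
      rw [hrk x.1 h1] at h5
      exact_mod_cast h5
  rw [hset]
  refine IsClosed.inter (isClosed_iInter fun v => ?_) (IsClosed.inter
    (isClosed_iInter fun v => isClosed_iInter fun w => ?_) (IsClosed.inter ?_ ?_))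
  · exact isClosed_eq (continuous_fst.clm_apply (continuous_fst.clm_apply continuous_const))
      (continuous_fst.clm_apply continuous_const)
  · exact isClosed_eq ((continuous_fst.clm_apply continuous_const).inner continuous_const)
      (continuous_const.inner (continuous_fst.clm_apply continuous_const))
  · exact isClosed_eq htr continuous_const
  · exact isClosed_eq (continuous_fst.clm_apply continuous_snd) continuous_snd

private theorem emb [FiniteDimensional ℂ E] :
    Topology.IsClosedEmbedding (fun y : Taut E m => y.1) :=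
  (isClosed_taut (E := E) (m := m)).isClosedEmbedding_subtypeVal

private theorem norm_le_one {P : E →L[ℂ] E} (h1 : ∀ v, P (P v) = P v)
    (h2 : ∀ v w, inner ℂ (P v) w = inner ℂ v (P w)) : ‖P‖ ≤ 1 := by
  apply ContinuousLinearMap.opNorm_le_bound _ zero_le_one
  intro v
  rw [one_mul]
  rcases eq_or_lt_of_le (norm_nonneg (P v)) with h0 | h0
  · rw [← h0]
    exact norm_nonneg _
  · have h3 : (inner ℂ (P v) (P v) : ℂ) = inner ℂ v (P v) := by
      rw [h2, h1]
    have h4 := inner_self_eq_norm_sq_to_K (𝕜 := ℂ) (P v)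
    have h5 := norm_inner_le_norm (𝕜 := ℂ) v (P v)
    rw [← h3, h4] at h5
    have h6 : ‖((‖P v‖ : ℂ)) ^ 2‖ = ‖P v‖ * ‖P v‖ := by
      rw [norm_pow, Complex.norm_real, norm_norm, sq]
    have h7 : ‖P v‖ * ‖P v‖ ≤ ‖v‖ * ‖P v‖ := by
      rw [← h6]
      exact h5
    exact le_of_mul_le_mul_right h7 h0

private theorem proper_pair [FiniteDimensional ℂ E] : ProperSpace ((E →L[ℂ] E) × E) := by
  have h1 : ProperSpace E := FiniteDimensional.proper ℂ E
  have h2 : ProperSpace (E →L[ℂ] E) := FiniteDimensional.proper ℂ _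
  infer_instance

instance taut_lc [FiniteDimensional ℂ E] : LocallyCompactSpace (Taut E m) := by
  have h := proper_pair (E := E)
  exact (emb (E := E) (m := m)).locallyCompactSpace

theorem isCompact_taut [FiniteDimensional ℂ E] (R : ℝ) : IsCompact {y : Taut E m | ‖y.1.2‖ ≤ R} := by
  have h := proper_pair (E := E)
  have h1 : ProperSpace E := FiniteDimensional.proper ℂ E
  have h2 : ProperSpace (E →L[ℂ] E) := FiniteDimensional.proper ℂ _
  have h3 : {y : Taut E m | ‖y.1.2‖ ≤ R} = (fun y : Taut E m => y.1) ⁻¹'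
      (Metric.closedBall (0 : E →L[ℂ] E) 1 ×ˢ Metric.closedBall (0 : E) R) := by
    ext y
    simp only [Set.mem_preimage, Set.mem_prod, mem_closedBall_zero_iff]
    constructor
    · intro h
      exact ⟨norm_le_one y.2.idem y.2.symm, h⟩
    · intro h
      exact h.2
  rw [h3]
  exact emb.isCompact_preimage
    ((isCompact_closedBall _ _).prod (isCompact_closedBall _ _))

theorem continuousAt_thom_infty {Y : Type*} [TopologicalSpace Y] {f : Y → Thom E m} {y : Y}
    (hy : f y = ∞) (h : ∀ R : ℝ, ∀ᶠ z in 𝓝 y, ∀ t : Taut E m, f z = (t : Thom E m) → R < ‖t.1.2‖) :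
    ContinuousAt f y := by
  rw [ContinuousAt, hy, OnePoint.hasBasis_nhds_infty.tendsto_right_iff]
  rintro s ⟨_, hs⟩
  have hc : Continuous fun t : Taut E m => t.1.2 :=
    continuous_snd.comp continuous_subtype_val
  obtain ⟨R, hR⟩ := hs.exists_bound_of_continuousOn hc.continuousOn
  filter_upwards [h R] with z hz
  induction hfz : f z using OnePoint.rec with
  | infty => exact Or.inr rfl
  | coe t =>
    left
    refine ⟨t, fun ht => ?_, rfl⟩
    have h1 := hR t ht
    have h2 := hz t hfz
    linarith

/-- a norm on the Thom space: `0` at infinity -/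
noncomputable def thomNorm (x : Thom E m) : ℝ := x.elim 0 fun t => 1 / (1 + ‖t.1.2‖)

theorem continuous_thomNorm [FiniteDimensional ℂ E] :
    Continuous (thomNorm : Thom E m → ℝ) := by
  have hc : Continuous fun t : Taut E m => t.1.2 :=
    continuous_snd.comp continuous_subtype_val
  rw [OnePoint.continuous_iff]
  constructor
  · rw [Metric.tendsto_nhds]
    intro ε hε
    refine hasBasis_coclosedCompact.eventually_iff.2
      ⟨{t | ‖t.1.2‖ ≤ 1 / ε}, ⟨(isCompact_taut _).isClosed, isCompact_taut _⟩, fun t ht => ?_⟩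
    have h1 : 1 / ε < ‖t.1.2‖ := not_le.1 ht
    change dist (1 / (1 + ‖t.1.2‖)) 0 < ε
    rw [Real.dist_eq, sub_zero, abs_of_nonneg (by positivity), div_lt_iff₀ (by positivity)]
    rw [div_lt_iff₀ hε] at h1
    nlinarith
  · change Continuous fun t : Taut E m => 1 / (1 + ‖t.1.2‖)
    exact continuous_const.div (continuous_const.add hc.norm) fun t => by positivity

end EMU
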