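import Pool.Agent.Lib.EMU.A.Maps
import Pool.Agent.Lib.EMU.A.ThomTop

/-!
# MP_9aab3b_gt, module A.Cont: continuity of suspension, inclusion and action

PROOF. `continuous_stabTaut`: `(y, w) ↦ stabTaut … y w` is continuous (composition of continuous linear maps, `Continuous.subtype_mk`).
`continuous_suspF`: put `f p = suspF (fun x => F (x, p.2)) p.1`. Let `p = (x', t)`.
* If `f p ≠ ∞`: then `x' = (v', τ)` and `F ((res v', τ), t) = (P, u)`; on the open set of the `(v', τ, t)` with `F (…) ≠ ∞`, `F` takes values in the open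
  subset `Taut` of the Thom space and `f` is the composition of continuous maps (use the embedding `OnePoint.isOpenEmbedding_coe`).
* If `f p = ∞` use `continuousAt_thom_infty`: note `‖ext φ u + blk B w‖^2 = ‖u‖^2 + ‖blk B w‖^2` (disjoint coordinates), so
  `‖ext φ u + blk B w‖ ≥ max ‖u‖ ‖blk B w‖`. Given `R`. If `x' = (v', τ)` is finite: `F` is near `∞` at nearby points, so by
  `continuous_thomNorm` `F (…) = (P, u)` implies `1 / (1 + ‖u‖) < 1 / (1 + R)`, `‖u‖ > R`. If `x' = ∞`: by continuity of `F` at
  `(∞, t)` there are a compact `C ⊆ V × ℝ^a` and a neighbourhood `N` of `t` such that `F (x, t') = (P, u)` implies `‖u‖ > R` for `x ∉ C`, `t' ∈ N`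
  (`OnePoint.hasBasis_nhds_infty`-type description of the neighbourhoods, product neighbourhoods). The set
  `C' = {(v', τ) | (res v', τ) ∈ C, ‖blk B (ext inl v')‖ ≤ R}` is compact (`v'` is determined by `res v'` and its last component; closed and
  bounded). For `x ∉ C'` either `(res v', τ) ∉ C`, so `‖u‖ > R`, or the `W` component has norm `> R`.
`continuous_inclF`: composition of `F` with the continuous map `OnePoint.map (stabTaut … · 0)` (`OnePoint.continuous_map`; the condition at infinity: the
preimage of a compact set is closed and contained in `{‖u‖ ≤ R}`, or use `continuousAt_thom_infty` as `‖ext φ u‖ = ‖u‖`).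
`continuous_thomAct`, `continuous_sphAct`: `OnePoint.continuous_map`; the maps are homeomorphisms with inverse the action of `g⁻¹`.
-/

set_option autoImplicit false

open scoped Topology OnePoint

namespace EMU

variable {G : Type} [Group G] [Fintype G] {a b k j : ℕ}

private theorem thomNorm_coe' {E : Type} [NormedAddCommGroup E] [InnerProductSpace ℂ E] {m : ℕ}
    (y : Taut E m) : thomNorm (y : Thom E m) = 1 / (1 + ‖y.1.2‖) := rfl

/-- near infinity the vector of a finite point is long -/
private theorem eventually_long {E : Type} [NormedAddCommGroup E] [InnerProductSpace ℂ E]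
    [FiniteDimensional ℂ E] {m : ℕ} (R : ℝ) :
    ∀ᶠ x : Thom E m in 𝓝 ∞, ∀ y : Taut E m, x = (y : Thom E m) → R < ‖y.1.2‖ := by
  have h1 : Filter.Tendsto (thomNorm : Thom E m → ℝ) (𝓝 ∞) (𝓝 0) :=
    (continuous_thomNorm (E := E) (m := m)).tendsto ∞
  have h2 : (0 : ℝ) < 1 / (1 + |R|) := by positivity
  filter_upwards [h1 (Iio_mem_nhds h2)] with x hx y hy
  have h3 : thomNorm x < 1 / (1 + |R|) := hx
  rw [hy, thomNorm_coe'] at h3
  have h4 : (1 : ℝ) + |R| < 1 + ‖y.1.2‖ := by
    have := (one_div_lt_one_div (by positivity) (by positivity)).1 h3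
    exact this
  have h5 := le_abs_self R
  linarith

/-- maps of total spaces which do not shorten vectors extend to the Thom spaces -/
private theorem continuous_mapThom {E E' : Type} [NormedAddCommGroup E] [InnerProductSpace ℂ E]
    [FiniteDimensional ℂ E] [NormedAddCommGroup E'] [InnerProductSpace ℂ E'] {m m' : ℕ}
    {Z : Type*} [TopologicalSpace Z] {φ : Taut E m × Z → Taut E' m'} (hφ : Continuous φ)
    (hn : ∀ y z, ‖y.1.2‖ ≤ ‖(φ (y, z)).1.2‖) :
    Continuous fun p : Thom E m × Z => (OnePoint.map (fun y => φ (y, p.2)) p.1 : Thom E' m') := by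
  rw [continuous_iff_continuousAt]
  rintro ⟨x, z⟩
  induction x using OnePoint.rec with
  | infty =>
    refine continuousAt_thom_infty rfl fun R => ?_
    have h1 : ∀ᶠ p : Thom E m × Z in 𝓝 ((∞ : Thom E m), z), ∀ y : Taut E m,
        p.1 = (y : Thom E m) → R < ‖y.1.2‖ :=
      (continuous_fst.tendsto ((∞ : Thom E m), z)).eventually (eventually_long R)
    filter_upwards [h1] with p hp t ht
    obtain ⟨x, z'⟩ := p
    induction x using OnePoint.rec with
    | infty => exact absurd ht (OnePoint.infty_ne_coe t)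
    | coe y =>
      have h2 : φ (y, z') = t := OnePoint.coe_injective ht
      rw [← h2]
      exact lt_of_lt_of_le (hp y rfl) (hn y z')
  | coe y =>
    have h1 : Topology.IsOpenEmbedding (Prod.map ((↑) : Taut E m → Thom E m) (id : Z → Z)) :=
      OnePoint.isOpenEmbedding_coe.prodMap Topology.IsOpenEmbedding.id
    have h2 := h1.continuousAt_iff (x := (y, z))
      (g := fun p : Thom E m × Z => (OnePoint.map (fun y => φ (y, p.2)) p.1 : Thom E' m'))
    refine h2.1 ?_
    have h3 : Continuous fun p : Taut E m × Z => (φ p : Thom E' m') :=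
      OnePoint.continuous_coe.comp hφ
    exact h3.continuousAt

private theorem norm_res_le {A A' : Type} [Fintype A] [Fintype A'] {φ : A → A'}
    (hφ : Function.Injective φ) (v : Rg G A') : ‖res φ v‖ ≤ ‖v‖ := by
  classical
  rw [EuclideanSpace.norm_eq, EuclideanSpace.norm_eq]
  apply Real.sqrt_le_sqrt
  have h1 : Function.Injective (fun p : A × G => (φ p.1, p.2)) := by
    rintro ⟨a, g⟩ ⟨a', g'⟩ h
    simp only [Prod.mk.injEq] at h
    rw [hφ h.1, h.2]
  calc ∑ p : A × G, ‖res φ v p‖ ^ 2 = ∑ q ∈ Finset.univ.image (fun p : A × G => (φ p.1, p.2)),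
        ‖v q‖ ^ 2 := by
        rw [Finset.sum_image fun x _ y _ h => h1 h]
        rfl
    _ ≤ ∑ q : A' × G, ‖v q‖ ^ 2 :=
        Finset.sum_le_sum_of_subset_of_nonneg (Finset.subset_univ _) fun _ _ _ => by positivity

private theorem norm_blk_le {A : Type} [Fintype A] (B : Set A) (v : Rg G A) :
    ‖blk B v‖ ≤ ‖v‖ := by
  rw [EuclideanSpace.norm_eq, EuclideanSpace.norm_eq]
  apply Real.sqrt_le_sqrt
  refine Finset.sum_le_sum fun p _ => ?_
  by_cases h : p.1 ∈ B
  · rw [blk_apply_mem _ h]
  · rw [blk_apply_not_mem _ h, norm_zero, zero_pow two_ne_zero]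
    positivity

private theorem res_stab {A A' : Type} [Fintype A] [Fintype A'] {φ : A → A'}
    (hφ : Function.Injective φ) {B : Set A'} (hB : ∀ a, φ a ∉ B) (u : Rg G A) (w : Rg G A') :
    res φ (ext φ u + blk B w) = u := by
  ext p
  have h1 : res φ (ext φ u + blk B w) p = ext φ u (φ p.1, p.2) + blk B w (φ p.1, p.2) := rfl
  rw [h1, ext_apply hφ, blk_apply_not_mem _ (hB p.1), add_zero]

private theorem blk_stab {A A' : Type} [Fintype A] [Fintype A'] {φ : A → A'}
    {B : Set A'} (hB : ∀ a, φ a ∉ B) (u : Rg G A) (w : Rg G A') :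
    blk B (ext φ u + blk B w) = blk B w := by
  ext p
  by_cases h : p.1 ∈ B
  · rw [blk_apply_mem _ h]
    have h1 : (ext φ u + blk B w) p = ext φ u (p.1, p.2) + blk B w p := rfl
    rw [h1, ext_apply_not, zero_add]
    rintro ⟨a, ha⟩
    exact hB a (ha ▸ h)
  · rw [blk_apply_not_mem _ h, blk_apply_not_mem _ h]

private theorem continuous_stabTaut {A A' : Type} [Fintype A] [Fintype A'] {φ : A → A'}
    (hφ : Function.Injective φ) {B : Set A'} (hB : ∀ a, φ a ∉ B) {m m' : ℕ}
    (hm : m' = m + Nat.card B * Fintype.card G) :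
    Continuous fun p : Taut (Rg G A) m × Rg G A' => stabTaut hφ hB hm p.1 p.2 := by
  have h0 : Continuous fun p : Taut (Rg G A) m × Rg G A' => p.1.1 :=
    continuous_subtype_val.comp continuous_fst
  have h1 : Continuous fun p : Taut (Rg G A) m × Rg G A' =>
      ((stabP φ B p.1.1.1, ext φ p.1.1.2 + blk B p.2) : (Rg G A' →L[ℂ] Rg G A') × Rg G A') := by
    have h2 : Continuous fun p : Taut (Rg G A) m × Rg G A' => stabP φ B p.1.1.1 := by
      have h3 : Continuous fun P : Rg G A →L[ℂ] Rg G A => stabP φ B P := by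
        unfold stabP
        fun_prop
      exact h3.comp (continuous_fst.comp h0)
    refine h2.prodMk ?_
    have h4 : Continuous fun p : Taut (Rg G A) m × Rg G A' => ext φ p.1.1.2 :=
      (ext φ).continuous.comp (continuous_snd.comp h0)
    exact h4.add ((blk B).continuous.comp continuous_snd)
  exact Continuous.subtype_mk h1 _

private theorem continuous_mapStab {A A' : Type} [Fintype A] [Fintype A'] {φ : A → A'}
    (hφ : Function.Injective φ) {B : Set A'} (hB : ∀ a, φ a ∉ B) {m m' : ℕ}
    (hm : m' = m + Nat.card B * Fintype.card G) :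
    Continuous fun p : Thom (Rg G A) m × Rg G A' =>
      (OnePoint.map (fun y => stabTaut hφ hB hm y p.2) p.1 : Thom (Rg G A') m') := by
  refine continuous_mapThom (continuous_stabTaut hφ hB hm) fun y w => ?_
  show ‖y.1.2‖ ≤ ‖ext φ y.1.2 + blk B w‖
  conv_lhs => rw [← res_stab hφ hB y.1.2 w]
  exact norm_res_le hφ _

/-- the norm of a vector is at most the sum of the norms of its restriction and of the last block -/
private theorem norm_le_res_add_blk (v : Rg G (Fin (k + 1))) :
    ‖v‖ ≤ ‖res Fin.castSucc v‖ +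
      ‖blk ({Sum.inl (Fin.last k)} : Set (Fin (k + 1) ⊕ Fin j)) (ext Sum.inl v)‖ := by
  classical
  have h1 : v = ext Fin.castSucc (res Fin.castSucc v) + blk {Fin.last k} v := by
    ext p
    obtain ⟨i, g⟩ := p
    have h2 : (ext Fin.castSucc (res Fin.castSucc v) + blk {Fin.last k} v) (i, g) =
      ext Fin.castSucc (res Fin.castSucc v) (i, g) + blk {Fin.last k} v (i, g) := rfl
    rw [h2]
    refine Fin.lastCases ?_ (fun i => ?_) i
    · rw [ext_apply_not, blk_apply_mem _ (by simp), zero_add]
      rintro ⟨a, ha⟩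
      exact Fin.castSucc_ne_last a ha
    · rw [ext_apply (Fin.castSucc_injective k), blk_apply_not_mem _ (by
        simp [Fin.castSucc_ne_last]), add_zero]
      rfl
  have h3 : ‖ext Fin.castSucc (res Fin.castSucc v)‖ ≤ ‖res Fin.castSucc v‖ := by
    rw [EuclideanSpace.norm_eq, EuclideanSpace.norm_eq]
    apply Real.sqrt_le_sqrt
    rw [Fintype.sum_prod_type, Fintype.sum_prod_type, Fin.sum_univ_castSucc]
    have h4 : ∑ g : G, ‖ext Fin.castSucc (res Fin.castSucc v) (Fin.last k, g)‖ ^ 2 = 0 := by
      apply Finset.sum_eq_zero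
      intro g _
      rw [ext_apply_not, norm_zero]
      · ring
      · rintro ⟨a, ha⟩
        exact Fin.castSucc_ne_last a ha
    rw [h4, add_zero]
    apply le_of_eq
    refine Finset.sum_congr rfl fun i _ => Finset.sum_congr rfl fun g _ => ?_
    rw [ext_apply (Fin.castSucc_injective k)]
  have h5 : ‖blk {Fin.last k} v‖ ≤
      ‖blk ({Sum.inl (Fin.last k)} : Set (Fin (k + 1) ⊕ Fin j)) (ext Sum.inl v)‖ := by
    have h6 : blk {Fin.last k} v = res Sum.inl
        (blk ({Sum.inl (Fin.last k)} : Set (Fin (k + 1) ⊕ Fin j)) (ext Sum.inl v)) := by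
      ext p
      rw [res_apply]
      by_cases h : p.1 ∈ ({Fin.last k} : Set (Fin (k + 1)))
      · rw [blk_apply_mem _ h, blk_apply_mem _ (by
          rw [Set.mem_singleton_iff] at h
          simp [h]), ext_apply Sum.inl_injective]
      · rw [blk_apply_not_mem _ h, blk_apply_not_mem _ (by
          rw [Set.mem_singleton_iff] at h
          simp [h])]
    rw [h6]
    exact norm_res_le Sum.inl_injective _
  calc ‖v‖ = ‖ext Fin.castSucc (res Fin.castSucc v) + blk {Fin.last k} v‖ := by rw [← h1]
    _ ≤ _ := (norm_add_le _ _).trans (add_le_add h3 h5)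

theorem continuous_suspF {T : Type*} [TopologicalSpace T]
    {F : Sph G a k × T → Thom (Rg G (Fin k ⊕ Fin j)) (k * Fintype.card G + b)}
    (hF : Continuous F) (h : ∀ t, F (∞, t) = ∞) :
    Continuous fun p : Sph G a (k + 1) × T => suspF (fun x => F (x, p.2)) p.1 := by
  rw [continuous_iff_continuousAt]
  rintro ⟨x, t⟩
  induction x using OnePoint.rec with
  | infty =>
    refine continuousAt_thom_infty rfl fun R => ?_
    have h1 : ∀ᶠ q : Sph G a k × T in 𝓝 ((∞ : Sph G a k), t),
        ∀ y : Taut (Rg G (Fin k ⊕ Fin j)) (k * Fintype.card G + b),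
          F q = (y : Thom (Rg G (Fin k ⊕ Fin j)) (k * Fintype.card G + b)) → R < ‖y.1.2‖ := by
      have h2 := hF.tendsto ((∞ : Sph G a k), t)
      rw [h t] at h2
      exact h2.eventually (eventually_long R)
    rw [nhds_prod_eq, Filter.eventually_prod_iff] at h1
    obtain ⟨pa, hpa, pb, hpb, hab⟩ := h1
    obtain ⟨C, ⟨hC1, hC2⟩, hC3⟩ := OnePoint.hasBasis_nhds_infty.mem_iff.1 hpa
    obtain ⟨R1, hR1⟩ := hC2.isBounded.exists_norm_le
    have h3 : ∀ᶠ x : Sph G a (k + 1) in 𝓝 ∞,
        ∀ n : Rg G (Fin (k + 1)) × EuclideanSpace ℝ (Fin a), x = (n : Sph G a (k + 1)) →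
          |R1| + |R| < ‖n‖ := by
      refine OnePoint.hasBasis_nhds_infty.mem_iff.2
        ⟨Metric.closedBall 0 (|R1| + |R|), ⟨Metric.isClosed_closedBall,
          isCompact_closedBall 0 _⟩, ?_⟩
      rintro x (⟨n, hn, rfl⟩ | hx) n' hn'
      · have h4 : n = n' := OnePoint.coe_injective hn'
        subst h4
        by_contra h5
        exact hn (by simpa using not_lt.1 h5)
      · rw [Set.mem_singleton_iff] at hx
        rw [hx] at hn'
        exact absurd hn' (OnePoint.infty_ne_coe n')
    rw [nhds_prod_eq, Filter.eventually_prod_iff]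
    refine ⟨_, h3, pb, hpb, ?_⟩
    intro x hx t' ht' y hy
    induction x using OnePoint.rec with
    | infty => exact absurd hy (OnePoint.infty_ne_coe y)
    | coe n =>
      have hn := hx n rfl
      have h6 : (OnePoint.map (fun y => stabTaut (upS_inj k j) (upS_not_mem k j)
        (dimS (Fintype.card G) k j b) y (ext Sum.inl n.1))
        (F (((res Fin.castSucc n.1, n.2) : Rg G (Fin k) × EuclideanSpace ℝ (Fin a)), t')) :
          Thom (Rg G (Fin (k + 1) ⊕ Fin j)) ((k + 1) * Fintype.card G + b)) = y := hy
      by_cases hm : ((res Fin.castSucc n.1, n.2) : Rg G (Fin k) × EuclideanSpace ℝ (Fin a)) ∈ C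
      · have h7 := hR1 _ hm
        have h8 : ‖res Fin.castSucc n.1‖ ≤ R1 := (norm_fst_le _).trans h7
        have h9 : ‖n.2‖ ≤ R1 := (norm_snd_le
          ((res Fin.castSucc n.1, n.2) : Rg G (Fin k) × EuclideanSpace ℝ (Fin a))).trans h7
        have h10 : |R| < ‖blk ({Sum.inl (Fin.last k)} : Set (Fin (k + 1) ⊕ Fin j))
            (ext Sum.inl n.1)‖ := by
          by_contra h11
          have h12 := norm_le_res_add_blk (j := j) n.1
          have h13 : ‖n‖ ≤ |R1| + |R| := by
            rw [Prod.norm_def]
            refine max_le ?_ ?_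
            · have := le_abs_self R1
              linarith [not_lt.1 h11]
            · have := le_abs_self R1
              have := abs_nonneg R
              linarith
          exact absurd hn (not_lt.2 h13)
        revert h6
        generalize F (((res Fin.castSucc n.1, n.2) :
          Rg G (Fin k) × EuclideanSpace ℝ (Fin a)), t') = z
        induction z using OnePoint.rec with
        | infty => exact fun h6 => absurd h6 (OnePoint.infty_ne_coe y)
        | coe u =>
          intro h6
          have h14 : stabTaut (upS_inj k j) (upS_not_mem k j)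
            (dimS (Fintype.card G) k j b) u (ext Sum.inl n.1) = y := OnePoint.coe_injective h6
          rw [← h14]
          have h15 : ‖blk ({Sum.inl (Fin.last k)} : Set (Fin (k + 1) ⊕ Fin j))
            (ext Sum.inl n.1)‖ ≤ ‖ext (upS k j) u.1.2 + blk {Sum.inl (Fin.last k)}
              (ext Sum.inl n.1)‖ := by
            conv_lhs => rw [← blk_stab (upS_not_mem k j) u.1.2 (ext Sum.inl n.1)]
            exact norm_blk_le _ _
          exact lt_of_le_of_lt (le_abs_self R) (lt_of_lt_of_le h10 h15)
      · have h7 := hab (hC3 (Or.inl ⟨_, hm, rfl⟩)) ht'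
        revert h6 h7
        generalize F (((res Fin.castSucc n.1, n.2) :
          Rg G (Fin k) × EuclideanSpace ℝ (Fin a)), t') = z
        induction z using OnePoint.rec with
        | infty => exact fun h6 => absurd h6 (OnePoint.infty_ne_coe y)
        | coe u =>
          intro h6 h7
          have h14 : stabTaut (upS_inj k j) (upS_not_mem k j)
            (dimS (Fintype.card G) k j b) u (ext Sum.inl n.1) = y := OnePoint.coe_injective h6
          rw [← h14]
          have h15 : ‖u.1.2‖ ≤ ‖ext (upS k j) u.1.2 + blk {Sum.inl (Fin.last k)}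
              (ext Sum.inl n.1)‖ := by
            conv_lhs => rw [← res_stab (upS_inj k j) (upS_not_mem k j) u.1.2 (ext Sum.inl n.1)]
            exact norm_res_le (upS_inj k j) _
          exact lt_of_lt_of_le (h7 u rfl) h15
  | coe n =>
    have h1 : Topology.IsOpenEmbedding (Prod.map
        ((↑) : Rg G (Fin (k + 1)) × EuclideanSpace ℝ (Fin a) → Sph G a (k + 1)) (id : T → T)) :=
      OnePoint.isOpenEmbedding_coe.prodMap Topology.IsOpenEmbedding.id
    have h2 := h1.continuousAt_iff (x := (n, t))
      (g := fun p : Sph G a (k + 1) × T => suspF (fun x => F (x, p.2)) p.1)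
    refine h2.1 ?_
    have h3 : Continuous fun p : (Rg G (Fin (k + 1)) × EuclideanSpace ℝ (Fin a)) × T =>
        F (((res Fin.castSucc p.1.1, p.1.2) : Rg G (Fin k) × EuclideanSpace ℝ (Fin a)), p.2) := by
      refine hF.comp (Continuous.prodMk ?_ continuous_snd)
      refine OnePoint.continuous_coe.comp (Continuous.prodMk ?_ ?_)
      · exact (res Fin.castSucc).continuous.comp (continuous_fst.comp continuous_fst)
      · exact continuous_snd.comp continuous_fst
    have h4 : Continuous fun p : (Rg G (Fin (k + 1)) × EuclideanSpace ℝ (Fin a)) × T =>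
        (ext Sum.inl p.1.1 : Rg G (Fin (k + 1) ⊕ Fin j)) :=
      (ext Sum.inl).continuous.comp (continuous_fst.comp continuous_fst)
    exact ((continuous_mapStab (upS_inj k j) (upS_not_mem k j)
      (dimS (Fintype.card G) k j b)).comp (h3.prodMk h4)).continuousAt

theorem continuous_inclF {T : Type*} [TopologicalSpace T]
    {F : Sph G a k × T → Thom (Rg G (Fin k ⊕ Fin j)) (k * Fintype.card G + b)}
    (hF : Continuous F) :
    Continuous fun p : Sph G a k × T => inclF (fun x => F (x, p.2)) p.1 := by
  have h1 : Continuous fun p : Sph G a k × T => ((F p, 0) :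
      Thom (Rg G (Fin k ⊕ Fin j)) (k * Fintype.card G + b) × Rg G (Fin k ⊕ Fin (j + 1))) :=
    hF.prodMk continuous_const
  exact (continuous_mapStab (upI_inj k j) (upI_not_mem k j)
    (dimI (Fintype.card G) k j b)).comp h1

theorem continuous_thomAct {A : Type} [Fintype A] {m : ℕ} (g : G) :
    Continuous (thomAct g : Thom (Rg G A) m → Thom (Rg G A) m) := by
  have h0 : Continuous fun p : Taut (Rg G A) m × Unit => p.1.1 :=
    continuous_subtype_val.comp continuous_fst
  have h1 : Continuous fun p : Taut (Rg G A) m × Unit => tautAct g p.1 := by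
    have h2 : Continuous fun p : Taut (Rg G A) m × Unit =>
        ((actL g ∘L p.1.1.1 ∘L actL g⁻¹, act g p.1.1.2) :
          (Rg G A →L[ℂ] Rg G A) × Rg G A) := by
      have h3 : Continuous fun P : Rg G A →L[ℂ] Rg G A => actL g ∘L P ∘L actL g⁻¹ := by
        fun_prop
      exact (h3.comp (continuous_fst.comp h0)).prodMk
        ((act g).continuous.comp (continuous_snd.comp h0))
    exact Continuous.subtype_mk h2 _
  have h2 := continuous_mapThom h1 fun y _ => by
    show ‖y.1.2‖ ≤ ‖act g y.1.2‖
    rw [LinearIsometryEquiv.norm_map]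
  exact h2.comp (continuous_id.prodMk (continuous_const : Continuous fun _ => ()))

theorem continuous_sphAct (g : G) : Continuous (sphAct g : Sph G a k → Sph G a k) := by
  let e : (Rg G (Fin k) × EuclideanSpace ℝ (Fin a)) ≃ₜ
      (Rg G (Fin k) × EuclideanSpace ℝ (Fin a)) :=
    (act g : Rg G (Fin k) ≃ₗᵢ[ℂ] Rg G (Fin k)).toHomeomorph.prodCongr (Homeomorph.refl _)
  exact e.onePointCongr.continuous

end EMU
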