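import Pool.Agent.Lib.EMU.A.Stab

/-!
# MP_9aab3b_gt, part A: action, suspension and inclusion on Thom spaces (definitions)

`Sph G a k` is the representation sphere `S^{V ⊕ ℝ^a}`, `V = Rg G (Fin k)` (`k` copies of the regular representation).
`suspF f` is the suspension of `f : S^{V ⊕ ℝ^a} → Thom (V ⊕ U_j)` by one more copy `W` of the regular representation:
`(v, w, t) ↦ (U ⊕ W, u + w)` if `f (v, t) = (U, u)`. `inclF f` is the composition with `Thom (V ⊕ U_j) → Thom (V ⊕ U_{j+1})`.
-/

set_option autoImplicit false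

open scoped Topology OnePoint

namespace EMU

noncomputable section

variable {G : Type} [Group G] [Fintype G]

/-- action on the total space of the tautological bundle -/
def tautAct {A : Type} [Fintype A] {m : ℕ} (g : G) (y : Taut (Rg G A) m) : Taut (Rg G A) m :=
  ⟨(actL g ∘L y.1.1 ∘L actL g⁻¹, act g y.1.2), isTaut_act g y.2⟩

/-- action on the Thom space -/
def thomAct {A : Type} [Fintype A] {m : ℕ} (g : G) : Thom (Rg G A) m → Thom (Rg G A) m :=
  OnePoint.map (tautAct g)

/-- stabilisation of a point of the tautological bundle along `φ`, adding the copies in `B` to the subspace and the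
`B`-component of `w` to the vector -/
def stabTaut {A A' : Type} [Fintype A] [Fintype A'] {φ : A → A'} (hφ : Function.Injective φ)
    {B : Set A'} (hB : ∀ a, φ a ∉ B) {m m' : ℕ} (hm : m' = m + Nat.card B * Fintype.card G)
    (y : Taut (Rg G A) m) (w : Rg G A') : Taut (Rg G A') m' :=
  ⟨(stabP φ B y.1.1, ext φ y.1.2 + blk B w), isTaut_stab hφ hB y.2 w hm⟩

/-- the representation sphere of `k` copies of the regular representation plus `ℝ^a` -/
abbrev Sph (G : Type) [Fintype G] (a k : ℕ) : Type :=
  OnePoint (Rg G (Fin k) × EuclideanSpace ℝ (Fin a))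

/-- action on the representation sphere -/
def sphAct {a k : ℕ} (g : G) : Sph G a k → Sph G a k :=
  OnePoint.map fun x => (act g x.1, x.2)

/-- the inclusion of the first `k` copies, in `V ⊕ U_j` -/
def upS (k j : ℕ) : Fin k ⊕ Fin j → Fin (k + 1) ⊕ Fin j := Sum.map Fin.castSucc id

/-- the inclusion `V ⊕ U_j → V ⊕ U_{j+1}` -/
def upI (k j : ℕ) : Fin k ⊕ Fin j → Fin k ⊕ Fin (j + 1) := Sum.map id Fin.castSucc

theorem upS_inj (k j : ℕ) : Function.Injective (upS k j) :=
  Sum.map_injective.2 ⟨Fin.castSucc_injective k, Function.injective_id⟩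

theorem upI_inj (k j : ℕ) : Function.Injective (upI k j) :=
  Sum.map_injective.2 ⟨Function.injective_id, Fin.castSucc_injective j⟩

theorem upS_not_mem (k j : ℕ) (a : Fin k ⊕ Fin j) :
    upS k j a ∉ ({Sum.inl (Fin.last k)} : Set (Fin (k + 1) ⊕ Fin j)) := by
  rcases a with i | i
  · simp [upS, Fin.castSucc_ne_last]
  · simp [upS]

theorem upI_not_mem (k j : ℕ) (a : Fin k ⊕ Fin j) :
    upI k j a ∉ (∅ : Set (Fin k ⊕ Fin (j + 1))) := by simp

theorem dimS (c k j b : ℕ) : (k + 1) * c + b =
    k * c + b + Nat.card ({Sum.inl (Fin.last k)} : Set (Fin (k + 1) ⊕ Fin j)) * c := by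
  rw [Nat.card_unique]; ring

theorem dimI (c k j b : ℕ) : k * c + b =
    k * c + b + Nat.card (∅ : Set (Fin k ⊕ Fin (j + 1))) * c := by
  simp

/-- suspension by one copy of the regular representation -/
def suspF {a b k j : ℕ} (f : Sph G a k → Thom (Rg G (Fin k ⊕ Fin j)) (k * Fintype.card G + b))
    (x : Sph G a (k + 1)) : Thom (Rg G (Fin (k + 1) ⊕ Fin j)) ((k + 1) * Fintype.card G + b) :=
  x.elim ∞ fun p => OnePoint.map
    (fun y => stabTaut (upS_inj k j) (upS_not_mem k j) (dimS (Fintype.card G) k j b) y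
      (ext Sum.inl p.1)) (f ((res Fin.castSucc p.1, p.2) : Rg G (Fin k) × EuclideanSpace ℝ (Fin a)))

/-- enlargement of the universe by one copy of the regular representation -/
def inclF {a b k j : ℕ} (f : Sph G a k → Thom (Rg G (Fin k ⊕ Fin j)) (k * Fintype.card G + b))
    (x : Sph G a k) : Thom (Rg G (Fin k ⊕ Fin (j + 1))) (k * Fintype.card G + b) :=
  OnePoint.map (fun y => stabTaut (upI_inj k j) (upI_not_mem k j) (dimI (Fintype.card G) k j b) y 0)
    (f x)

end

end EMU
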