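import Pool.Agent.Lib.EMU.A.Cont
import Pool.Agent.Lib.EMU.A.Alg

/-!
# MP_9aab3b_gt, part A: the coefficients `π_{a-2b}^G(MU)` (definitions)

`G` is a finite group, `V_k = Rg G (Fin k)` the sum of `k` copies of the complex regular representation, `U_j` another sum of `j` copies
(an approximation of a complete universe). `GMap G a b k j` is the set of based equivariant maps
`S^{V_k ⊕ ℝ^a} → Th(tautological bundle over Gr_{dim V_k + b}(V_k ⊕ U_j))`. The homotopy group of tom Dieck's spectrum is
`π_{a-2b}^G(MU) = colim_{k,j} [S^{V_k ⊕ ℝ^a}, Th(Gr_{dim V_k + b}(V_k ⊕ U_j))]^G`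
(the `V_k` are cofinal among the finite dimensional subrepresentations of a complete universe, spheres are compact and the bonding maps are
those of the tom Dieck spectrum): this is the type `PiMU G a b`.
-/

set_option autoImplicit false

open scoped Topology OnePoint unitInterval

namespace EMU

noncomputable section

/-- based equivariant maps from `S^{V_k ⊕ ℝ^a}` to the Thom space of the tautological bundle of rank `dim V_k + b` over the Grassmannian of
`V_k ⊕ U_j` -/
structure GMap (G : Type) [Group G] [Fintype G] (a b k j : ℕ) where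
  /-- the map -/
  toFun : Sph G a k → Thom (Rg G (Fin k ⊕ Fin j)) (k * Fintype.card G + b)
  cont : Continuous toFun
  base : toFun ∞ = ∞
  equi : ∀ (g : G) (x : Sph G a k), toFun (sphAct g x) = thomAct g (toFun x)

variable {G : Type} [Group G] [Fintype G] {a b k j : ℕ}

/-- based equivariant homotopy -/
def GHtpy (f f' : GMap G a b k j) : Prop :=
  ∃ F : Sph G a k × I → Thom (Rg G (Fin k ⊕ Fin j)) (k * Fintype.card G + b),
    Continuous F ∧ (∀ t, F (∞, t) = ∞) ∧ (∀ (g : G) x t, F (sphAct g x, t) = thomAct g (F (x, t))) ∧
      (∀ x, F (x, 0) = f.toFun x) ∧ ∀ x, F (x, 1) = f'.toFun x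

/-- the constant map -/
def GMap.const (G : Type) [Group G] [Fintype G] (a b k j : ℕ) : GMap G a b k j where
  toFun _ := ∞
  cont := continuous_const
  base := rfl
  equi _ _ := rfl

/-- suspension by one copy of the regular representation -/
def GMap.susp (f : GMap G a b k j) : GMap G a b (k + 1) j where
  toFun := suspF f.toFun
  cont := by
    have h := continuous_suspF (T := Unit) (F := fun p => f.toFun p.1)
      (f.cont.comp continuous_fst) (fun _ => f.base)
    exact h.comp (continuous_id.prodMk (continuous_const : Continuous fun _ => ()))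
  base := rfl
  equi _ x := suspF_equi (f.equi _) x

/-- enlargement of the universe by one copy of the regular representation -/
def GMap.incl (f : GMap G a b k j) : GMap G a b k (j + 1) where
  toFun := inclF f.toFun
  cont := by
    have h := continuous_inclF (T := Unit) (F := fun p => f.toFun p.1) (f.cont.comp continuous_fst)
    exact h.comp (continuous_id.prodMk (continuous_const : Continuous fun _ => ()))
  base := by
    show OnePoint.map _ (f.toFun ∞) = ∞
    rw [f.base]; rfl
  equi _ x := inclF_equi (f.equi _) x

/-- representatives -/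
def Repr (G : Type) [Group G] [Fintype G] (a b : ℕ) : Type := Σ (k j : ℕ), GMap G a b k j

/-- the relations: homotopy, suspension, enlargement of the universe -/
inductive Rel (G : Type) [Group G] [Fintype G] (a b : ℕ) : Repr G a b → Repr G a b → Prop
  | htpy {k j : ℕ} (f f' : GMap G a b k j) : GHtpy f f' → Rel G a b ⟨k, j, f⟩ ⟨k, j, f'⟩
  | susp {k j : ℕ} (f : GMap G a b k j) : Rel G a b ⟨k, j, f⟩ ⟨k + 1, j, f.susp⟩
  | incl {k j : ℕ} (f : GMap G a b k j) : Rel G a b ⟨k, j, f⟩ ⟨k, j + 1, f.incl⟩

/-- `π_{a-2b}^G(MU)` (underlying pointed set of the colimit) -/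
def PiMU (G : Type) [Group G] [Fintype G] (a b : ℕ) : Type := Quot (Rel G a b)

/-- the zero element, the class of the constant map -/
def PiMU.zero (G : Type) [Group G] [Fintype G] (a b : ℕ) : PiMU G a b :=
  Quot.mk _ ⟨0, 0, GMap.const G a b 0 0⟩

/-- evenness of `π_*^G(MU)`: `π_{a-2b}^G(MU) = 0` for all `a` odd and all `b` -/
def IsEvenMU (G : Type) [Group G] [Fintype G] : Prop :=
  ∀ a b : ℕ, Odd a → ∀ x : PiMU G a b, x = PiMU.zero G a b

/-- `f` becomes null homotopic after finitely many suspensions and enlargements of the universe -/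
inductive StabNull {G : Type} [Group G] [Fintype G] {a b : ℕ} :
    ∀ {k j : ℕ}, GMap G a b k j → Prop
  | null {k j : ℕ} {f : GMap G a b k j} : GHtpy f (GMap.const G a b k j) → StabNull f
  | susp {k j : ℕ} {f : GMap G a b k j} : StabNull f.susp → StabNull f
  | incl {k j : ℕ} {f : GMap G a b k j} : StabNull f.incl → StabNull f

end

end EMU
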