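import Pool.Agent.Lib.EMU.A.PiMU

/-!
# MP_9aab3b_gt, module A.Quot: an element of `PiMU` is zero only if its representative is stably null homotopic

PROOF. `GHtpy` is symmetric (`t ↦ σ t`, `unitInterval.symm`) and transitive (glue the two homotopies: `F (x, t) = F₁ (x, 2t)` for `t ≤ 1/2` and
`F₂ (x, 2t-1)` otherwise; `Continuous.if_le`; clamp with `Set.projIcc`), reflexive. If `GHtpy f f'` then
`GHtpy f.susp f'.susp` (`continuous_suspF` applied to `F`, `suspF_equi` for each `t`) and `GHtpy f.incl f'.incl`; and
`(GMap.const G a b k j).susp = GMap.const …`, same for `incl` (as functions: `suspF (fun _ => ∞) = fun _ => ∞`, cases on `x`).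
`f.susp.incl = f.incl.susp` (`susp_incl_comm`; `GMap` ext: the other fields are proofs).
(1) `StabNull f`, `GHtpy f f'` imply `StabNull f'`: induction on `StabNull f` generalizing `f'`.
(2) `StabNull f → StabNull f.susp`: induction. null: `f.susp ≃ const.susp = const`. susp: the induction hypothesis for `f.susp` is
`StabNull f.susp.susp`, so `StabNull f.susp` by `StabNull.susp`. incl: the induction hypothesis is `StabNull f.incl.susp`, and
`f.incl.susp = f.susp.incl`, so `StabNull f.susp` by `StabNull.incl`. (3) The same for `incl`.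
`stabNull_of_eq_zero`: the function `Repr → Prop`, `⟨k, j, f⟩ ↦ StabNull f` respects `Rel` (by (1), (2), (3), the constructors, `propext`), so it lifts
to the quotient (`Quot.lift`), and it is true at `PiMU.zero` (the constant map is homotopic to itself).
-/

set_option autoImplicit false

open scoped Topology OnePoint unitInterval

namespace EMU

variable {G : Type} [Group G] [Fintype G] {a b k j : ℕ}

private theorem gmap_ext {f f' : GMap G a b k j} (h : f.toFun = f'.toFun) : f = f' := by
  obtain ⟨f, _, _, _⟩ := f
  obtain ⟨f', _, _, _⟩ := f'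
  obtain rfl : f = f' := h
  rfl

private theorem ghtpy_refl (f : GMap G a b k j) : GHtpy f f :=
  ⟨fun p => f.toFun p.1, f.cont.comp continuous_fst, fun _ => f.base, fun g x _ => f.equi g x,
    fun _ => rfl, fun _ => rfl⟩

private theorem ghtpy_symm {f f' : GMap G a b k j} (h : GHtpy f f') : GHtpy f' f := by
  obtain ⟨F, h1, h2, h3, h4, h5⟩ := h
  refine ⟨fun p => F (p.1, unitInterval.symm p.2), ?_, fun t => h2 _, fun g x t => h3 g x _, ?_, ?_⟩
  · exact h1.comp (continuous_fst.prodMk (unitInterval.continuous_symm.comp continuous_snd))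
  · intro x
    show F (x, unitInterval.symm 0) = f'.toFun x
    rw [unitInterval.symm_zero]
    exact h5 x
  · intro x
    show F (x, unitInterval.symm 1) = f.toFun x
    rw [unitInterval.symm_one]
    exact h4 x

private theorem ghtpy_trans {f f' f'' : GMap G a b k j} (h : GHtpy f f') (h' : GHtpy f' f'') :
    GHtpy f f'' := by
  obtain ⟨F, h1, h2, h3, h4, h5⟩ := h
  obtain ⟨F', h1', h2', h3', h4', h5'⟩ := h'
  have hle : (0 : ℝ) ≤ 1 := zero_le_one
  refine ⟨fun p => if (p.2 : ℝ) ≤ 1 / 2 then F (p.1, Set.projIcc 0 1 hle (2 * (p.2 : ℝ)))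
    else F' (p.1, Set.projIcc 0 1 hle (2 * (p.2 : ℝ) - 1)), ?_, ?_, ?_, ?_, ?_⟩
  · refine Continuous.if_le ?_ ?_ ?_ continuous_const ?_
    · refine h1.comp (continuous_fst.prodMk (continuous_projIcc.comp ?_))
      exact continuous_const.mul (continuous_subtype_val.comp continuous_snd)
    · refine h1'.comp (continuous_fst.prodMk (continuous_projIcc.comp ?_))
      exact (continuous_const.mul (continuous_subtype_val.comp continuous_snd)).sub
        continuous_const
    · exact continuous_subtype_val.comp continuous_snd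
    · rintro ⟨x, t⟩ ht
      have ht' : (t : ℝ) = 1 / 2 := ht
      show F (x, Set.projIcc 0 1 hle (2 * (t : ℝ))) = F' (x, Set.projIcc 0 1 hle (2 * (t : ℝ) - 1))
      rw [ht']
      have e1 : Set.projIcc 0 1 hle (2 * (1 / 2 : ℝ)) = (1 : I) := by
        rw [show (2 * (1 / 2) : ℝ) = 1 by norm_num]
        exact Set.projIcc_right hle
      have e2 : Set.projIcc 0 1 hle (2 * (1 / 2 : ℝ) - 1) = (0 : I) := by
        rw [show (2 * (1 / 2) - 1 : ℝ) = 0 by norm_num]
        exact Set.projIcc_left hle
      rw [e1, e2, h5, h4']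
  · intro t
    show (if (t : ℝ) ≤ 1 / 2 then F (∞, _) else F' (∞, _)) = ∞
    rw [h2, h2', ite_self]
  · intro g x t
    show (if (t : ℝ) ≤ 1 / 2 then F (sphAct g x, _) else F' (sphAct g x, _)) =
      thomAct g (if (t : ℝ) ≤ 1 / 2 then F (x, _) else F' (x, _))
    split_ifs
    · exact h3 g x _
    · exact h3' g x _
  · intro x
    show (if ((0 : I) : ℝ) ≤ 1 / 2 then F (x, Set.projIcc 0 1 hle (2 * ((0 : I) : ℝ))) else
      F' (x, _)) = f.toFun x
    rw [if_pos (by norm_num)]
    have e2 : Set.projIcc 0 1 hle (2 * ((0 : I) : ℝ)) = (0 : I) := by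
      rw [show (2 * ((0 : I) : ℝ)) = 0 by norm_num]
      exact Set.projIcc_left hle
    rw [e2, h4]
  · intro x
    show (if ((1 : I) : ℝ) ≤ 1 / 2 then F (x, _) else
      F' (x, Set.projIcc 0 1 hle (2 * ((1 : I) : ℝ) - 1))) = f''.toFun x
    rw [if_neg (by norm_num)]
    have e2 : Set.projIcc 0 1 hle (2 * ((1 : I) : ℝ) - 1) = (1 : I) := by
      rw [show (2 * ((1 : I) : ℝ) - 1) = 1 by norm_num]
      exact Set.projIcc_right hle
    rw [e2, h5']

private theorem ghtpy_susp {f f' : GMap G a b k j} (h : GHtpy f f') : GHtpy f.susp f'.susp := by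
  obtain ⟨F, h1, h2, h3, h4, h5⟩ := h
  refine ⟨fun p => suspF (fun x => F (x, p.2)) p.1, continuous_suspF h1 h2, fun _ => rfl,
    fun g x t => suspF_equi (fun x => h3 g x t) x, ?_, ?_⟩
  · intro x
    show suspF (fun x => F (x, 0)) x = suspF f.toFun x
    rw [show (fun x => F (x, 0)) = f.toFun from funext h4]
  · intro x
    show suspF (fun x => F (x, 1)) x = suspF f'.toFun x
    rw [show (fun x => F (x, 1)) = f'.toFun from funext h5]

private theorem ghtpy_incl {f f' : GMap G a b k j} (h : GHtpy f f') : GHtpy f.incl f'.incl := by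
  obtain ⟨F, h1, h2, h3, h4, h5⟩ := h
  refine ⟨fun p => inclF (fun x => F (x, p.2)) p.1, continuous_inclF h1, ?_,
    fun g x t => inclF_equi (fun x => h3 g x t) x, ?_, ?_⟩
  · intro t
    show OnePoint.map _ (F (∞, t)) = ∞
    rw [h2]
    rfl
  · intro x
    show inclF (fun x => F (x, 0)) x = inclF f.toFun x
    rw [show (fun x => F (x, 0)) = f.toFun from funext h4]
  · intro x
    show inclF (fun x => F (x, 1)) x = inclF f'.toFun x
    rw [show (fun x => F (x, 1)) = f'.toFun from funext h5]

private theorem const_susp : (GMap.const G a b k j).susp = GMap.const G a b (k + 1) j := by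
  apply gmap_ext
  funext x
  induction x using OnePoint.rec with
  | infty => rfl
  | coe p => rfl

private theorem const_incl : (GMap.const G a b k j).incl = GMap.const G a b k (j + 1) := by
  apply gmap_ext
  funext x
  rfl

private theorem susp_incl (f : GMap G a b k j) : f.susp.incl = f.incl.susp :=
  gmap_ext (susp_incl_comm f.toFun).symm

private theorem stabNull_htpy {f f' : GMap G a b k j} (h : StabNull f) (hf : GHtpy f f') :
    StabNull f' := by
  induction h with
  | null h => exact StabNull.null (ghtpy_trans (ghtpy_symm hf) h)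
  | susp _ ih => exact StabNull.susp (ih (ghtpy_susp hf))
  | incl _ ih => exact StabNull.incl (ih (ghtpy_incl hf))

private theorem stabNull_susp {f : GMap G a b k j} (h : StabNull f) : StabNull f.susp := by
  induction h with
  | null h =>
    refine StabNull.null ?_
    have h1 := ghtpy_susp h
    rwa [const_susp] at h1
  | susp _ ih => exact StabNull.susp ih
  | incl _ ih =>
    refine StabNull.incl ?_
    rwa [susp_incl]

private theorem stabNull_incl {f : GMap G a b k j} (h : StabNull f) : StabNull f.incl := by
  induction h with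
  | null h =>
    refine StabNull.null ?_
    have h1 := ghtpy_incl h
    rwa [const_incl] at h1
  | susp _ ih =>
    refine StabNull.susp ?_
    rwa [← susp_incl]
  | incl _ ih => exact StabNull.incl ih

theorem stabNull_of_eq_zero {f : GMap G a b k j}
    (h : (Quot.mk _ ⟨k, j, f⟩ : PiMU G a b) = PiMU.zero G a b) : StabNull f := by
  have key : ∀ r r' : Repr G a b, Rel G a b r r' → StabNull r.2.2 = StabNull r'.2.2 := by
    intro r r' hr
    cases hr with
    | htpy f f' h =>
      exact propext ⟨fun h1 => stabNull_htpy h1 h, fun h1 => stabNull_htpy h1 (ghtpy_symm h)⟩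
    | susp f => exact propext ⟨stabNull_susp, StabNull.susp⟩
    | incl f => exact propext ⟨stabNull_incl, StabNull.incl⟩
  have h1 : (Quot.lift (fun r : Repr G a b => StabNull r.2.2) key : PiMU G a b → Prop)
      (Quot.mk _ ⟨k, j, f⟩) = (Quot.lift (fun r : Repr G a b => StabNull r.2.2) key :
        PiMU G a b → Prop) (PiMU.zero G a b) := by rw [h]
  have h2 : StabNull f = StabNull (GMap.const G a b 0 0) := h1
  rw [h2]
  exact StabNull.null (ghtpy_refl _)

end EMU
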