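import Mathlib

/-!
# MP_9aab3b_gt, part A: regular representations, Thom spaces (definitions)

`Rg G I` is the direct sum of `|I|` copies of the complex regular representation of the finite group `G`, with orthonormal basis
`I × G`. `act g` is the action of `g`. `Taut E m` is the total space of the tautological bundle over the Grassmannian of the
`m`-dimensional subspaces `U` of `E`: a point is a pair (orthogonal projection onto `U`, vector of `U`). `Thom E m` is its one point
compactification.
For a map `φ : A → A'` of index sets, `res φ : Rg G A' → Rg G A` is the restriction, `ext φ` the extension by `0`, and `blk B` is the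
projection onto the copies with index in `B`.
-/

set_option autoImplicit false

open scoped Topology

namespace EMU

noncomputable section

/-- `|I|` copies of the complex regular representation of `G` -/
abbrev Rg (G I : Type) [Fintype G] [Fintype I] : Type := EuclideanSpace ℂ (I × G)

section Act

variable {G : Type} [Group G] [Fintype G] {I : Type} [Fintype I]

/-- the action of `g`: `(act g v) (i, h) = v (i, g⁻¹ h)` -/
def act (g : G) : Rg G I ≃ₗᵢ[ℂ] Rg G I :=
  LinearIsometryEquiv.piLpCongrLeft 2 ℂ ℂ ((Equiv.refl I).prodCongr (Equiv.mulLeft g))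

theorem act_apply (g : G) (v : Rg G I) (p : I × G) : act g v p = v (p.1, g⁻¹ * p.2) := rfl

/-- the action as a continuous linear map -/
def actL (g : G) : Rg G I →L[ℂ] Rg G I := (act g).toContinuousLinearEquiv.toContinuousLinearMap

theorem actL_apply (g : G) (v : Rg G I) : actL g v = act g v := rfl

theorem act_mul (g h : G) (v : Rg G I) : act (g * h) v = act g (act h v) := by
  ext p
  simp only [act_apply, mul_inv_rev, mul_assoc]

theorem act_one (v : Rg G I) : act (1 : G) v = v := by
  ext p
  simp only [act_apply, inv_one, one_mul]

end Act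

section Thom

/-- `P` is an orthogonal projection of rank `m` and `u` belongs to its range -/
structure IsTaut {E : Type} [NormedAddCommGroup E] [InnerProductSpace ℂ E] (m : ℕ)
    (x : (E →L[ℂ] E) × E) : Prop where
  idem : ∀ v, x.1 (x.1 v) = x.1 v
  symm : ∀ v w, inner ℂ (x.1 v) w = inner ℂ v (x.1 w)
  rank : Module.finrank ℂ (LinearMap.range (x.1 : E →ₗ[ℂ] E)) = m
  mem : x.1 x.2 = x.2

/-- total space of the tautological bundle over the Grassmannian of `m`-dimensional subspaces of `E` -/
def Taut (E : Type) [NormedAddCommGroup E] [InnerProductSpace ℂ E] (m : ℕ) : Type :=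
  {x : (E →L[ℂ] E) × E // IsTaut m x}

instance (E : Type) [NormedAddCommGroup E] [InnerProductSpace ℂ E] (m : ℕ) :
    TopologicalSpace (Taut E m) := inferInstanceAs (TopologicalSpace {x : (E →L[ℂ] E) × E // IsTaut m x})

/-- Thom space of the tautological bundle -/
abbrev Thom (E : Type) [NormedAddCommGroup E] [InnerProductSpace ℂ E] (m : ℕ) : Type :=
  OnePoint (Taut E m)

end Thom

section Ops

variable {G : Type} [Fintype G] {A A' : Type} [Fintype A] [Fintype A']

/-- restriction along `φ` -/
def res (φ : A → A') : Rg G A' →L[ℂ] Rg G A :=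
  LinearMap.toContinuousLinearMap
    { toFun := fun v => WithLp.toLp 2 fun p => v (φ p.1, p.2)
      map_add' := fun _ _ => rfl
      map_smul' := fun _ _ => rfl }

open Classical in
/-- extension by zero along `φ` -/
def ext (φ : A → A') : Rg G A →L[ℂ] Rg G A' :=
  LinearMap.toContinuousLinearMap
    { toFun := fun v => WithLp.toLp 2 fun p => if h : ∃ a, φ a = p.1 then v (h.choose, p.2) else 0
      map_add' := fun v w => by
        ext p
        by_cases h : ∃ a, φ a = p.1 <;> simp [h]
      map_smul' := fun c v => by
        ext p
        by_cases h : ∃ a, φ a = p.1 <;> simp [h] }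

open Classical in
/-- projection onto the copies with index in `B` -/
def blk (B : Set A) : Rg G A →L[ℂ] Rg G A :=
  LinearMap.toContinuousLinearMap
    { toFun := fun v => WithLp.toLp 2 fun p => if p.1 ∈ B then v p else 0
      map_add' := fun v w => by
        ext p
        by_cases h : p.1 ∈ B <;> simp [h]
      map_smul' := fun c v => by
        ext p
        by_cases h : p.1 ∈ B <;> simp [h] }

theorem res_apply (φ : A → A') (v : Rg G A') (p : A × G) : res φ v p = v (φ p.1, p.2) := rfl

open Classical in
theorem blk_apply_mem {B : Set A} (v : Rg G A) {p : A × G} (h : p.1 ∈ B) : blk B v p = v p := by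
  show (if p.1 ∈ B then v p else 0) = v p
  exact if_pos h

open Classical in
theorem blk_apply_not_mem {B : Set A} (v : Rg G A) {p : A × G} (h : p.1 ∉ B) : blk B v p = 0 := by
  show (if p.1 ∈ B then v p else 0) = 0
  exact if_neg h

open Classical in
theorem ext_apply {φ : A → A'} (hφ : Function.Injective φ) (v : Rg G A) (a : A) (g : G) :
    ext φ v (φ a, g) = v (a, g) := by
  have h : ∃ a', φ a' = φ a := ⟨a, rfl⟩
  show (if h : ∃ a', φ a' = φ a then v (h.choose, g) else 0) = v (a, g)
  rw [dif_pos h, hφ h.choose_spec]

open Classical in
theorem ext_apply_not {φ : A → A'} (v : Rg G A) {a' : A'} (h : ¬ ∃ a, φ a = a') (g : G) :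
    ext φ v (a', g) = 0 := by
  show (if h : ∃ a, φ a = a' then v (h.choose, g) else 0) = 0
  rw [dif_neg h]

/-- the projection `ext φ ∘ P ∘ res φ` plus the copies in `B` -/
def stabP (φ : A → A') (B : Set A') (P : Rg G A →L[ℂ] Rg G A) : Rg G A' →L[ℂ] Rg G A' :=
  ext φ ∘L P ∘L res φ + blk B

end Ops

end

end EMU
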