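import Pool.Agent.Lib.EMU.A.Rep

/-!
# MP_9aab3b_gt, module A.Stab: stabilisation of points of the Thom space

PROOF. `isTaut_act`: conjugation by the linear isometry `act g`: idempotent and symmetric are direct
(`LinearIsometryEquiv.inner_map_map`); `act g⁻¹` is the inverse of `act g` (`act_mul`, `act_one`); the range of `act g ∘ P ∘ act g⁻¹` is the image of the range of `P` under `act g`
(`LinearMap.range_comp`, `LinearEquiv.finrank_map_eq`).
`isTaut_stab`. Write `e = ext φ`, `r = res φ`. `r (e v) = v` (`ext_apply`), `blk B ∘ blk B = blk B`, `blk B (e v) = 0` and `r (blk B w) = 0`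
(because `φ a ∉ B`), `⟪e v, w⟫ = ⟪v, r w⟫` (sum over `A' × G`: the terms outside the image of `φ` vanish; `Finset.sum_image`-type
argument or `Function.Injective.sum_...`; inner product of `EuclideanSpace`: `PiLp.inner_apply`), `⟪blk B v, w⟫ = ⟪v, blk B w⟫`.
Idempotent and symmetric follow. `mem`: `(e P r + blk B) (e u + blk B w) = e P u + blk B w = e u + blk B w`.
Rank: the range of `e P r + blk B` is the direct sum of `e (range P)` (dimension `m`, `e` injective) and `range (blk B)`, which has dimension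
`Nat.card B * card G` (it is the span of the orthonormal vectors `EuclideanSpace.single p 1`, `p.1 ∈ B`; or it is isomorphic to the functions on
`B × G`). They are disjoint (`r` is injective on the first and `0` on the second). `Submodule.finrank_sup_add_finrank_inf_eq`.
An alternative for the rank: the rank of an idempotent is its trace (`LinearMap.IsProj.trace` / `LinearMap.IsIdempotentElem...`):
`trace (e P r) = trace (r e P) = trace P = m` and `trace (blk B) = Nat.card B * card G` (matrix diagonal).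
-/

set_option autoImplicit false

open scoped Topology

namespace EMU

variable {G : Type} [Fintype G] {A A' : Type} [Fintype A] [Fintype A']

private theorem res_ext {φ : A → A'} (hφ : Function.Injective φ) (v : Rg G A) :
    res φ (ext φ v) = v := by
  ext p
  rw [res_apply, ext_apply hφ]

private theorem blk_blk (B : Set A') (v : Rg G A') : blk B (blk B v) = blk B v := by
  ext p
  by_cases h : p.1 ∈ B
  · rw [blk_apply_mem _ h]
  · rw [blk_apply_not_mem _ h, blk_apply_not_mem _ h]

private theorem blk_ext {φ : A → A'} {B : Set A'} (hB : ∀ a, φ a ∉ B) (v : Rg G A) :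
    blk B (ext φ v) = 0 := by
  ext p
  by_cases h : p.1 ∈ B
  · rw [blk_apply_mem _ h]
    exact ext_apply_not v (fun ⟨a, ha⟩ => hB a (ha ▸ h)) p.2
  · rw [blk_apply_not_mem _ h]
    rfl

private theorem res_blk {φ : A → A'} {B : Set A'} (hB : ∀ a, φ a ∉ B) (v : Rg G A') :
    res φ (blk B v) = 0 := by
  ext p
  rw [res_apply, blk_apply_not_mem _ (hB p.1)]
  rfl

private theorem inner_ext {φ : A → A'} (hφ : Function.Injective φ) (v : Rg G A) (w : Rg G A') :
    inner ℂ (ext φ v) w = inner ℂ v (res φ w) := by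
  rw [PiLp.inner_apply, PiLp.inner_apply]
  symm
  apply Fintype.sum_of_injective (fun p : A × G => (φ p.1, p.2))
  · rintro ⟨a, g⟩ ⟨a', g'⟩ h
    simp only [Prod.mk.injEq] at h
    rw [hφ h.1, h.2]
  · rintro ⟨a, g⟩ hi
    have h1 : ext φ v (a, g) = 0 := by
      apply ext_apply_not
      rintro ⟨b, hb⟩
      exact hi ⟨(b, g), by rw [← hb]⟩
    rw [h1, inner_zero_left]
  · rintro ⟨a, g⟩
    rw [res_apply, ext_apply hφ]

private theorem inner_res {φ : A → A'} (hφ : Function.Injective φ) (v : Rg G A) (w : Rg G A') :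
    inner ℂ (res φ w) v = inner ℂ w (ext φ v) := by
  rw [← inner_conj_symm, ← inner_ext hφ, inner_conj_symm]

private theorem inner_blk (B : Set A') (v w : Rg G A') :
    inner ℂ (blk B v) w = inner ℂ v (blk B w) := by
  rw [PiLp.inner_apply, PiLp.inner_apply]
  apply Finset.sum_congr rfl
  intro p _
  by_cases h : p.1 ∈ B
  · rw [blk_apply_mem _ h, blk_apply_mem _ h]
  · rw [blk_apply_not_mem _ h, blk_apply_not_mem _ h, inner_zero_left, inner_zero_right]

open Classical in
/-- extension by zero from the copies in `B` -/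
private noncomputable def extB (B : Set A') : (B × G → ℂ) →ₗ[ℂ] Rg G A' where
  toFun c := WithLp.toLp 2 fun p => if h : p.1 ∈ B then c (⟨p.1, h⟩, p.2) else 0
  map_add' v w := by
    ext p
    by_cases h : p.1 ∈ B <;> simp [h]
  map_smul' c v := by
    ext p
    by_cases h : p.1 ∈ B <;> simp [h]

open Classical in
private theorem extB_mem (B : Set A') (c : B × G → ℂ) {p : A' × G} (h : p.1 ∈ B) :
    extB B c p = c (⟨p.1, h⟩, p.2) := by
  show (if h : p.1 ∈ B then c (⟨p.1, h⟩, p.2) else 0) = _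
  rw [dif_pos h]

open Classical in
private theorem extB_not_mem (B : Set A') (c : B × G → ℂ) {p : A' × G} (h : p.1 ∉ B) :
    extB B c p = 0 := by
  show (if h : p.1 ∈ B then c (⟨p.1, h⟩, p.2) else 0) = _
  rw [dif_neg h]

private theorem blk_extB (B : Set A') (c : B × G → ℂ) : blk B (extB B c) = extB B c := by
  ext p
  by_cases h : p.1 ∈ B
  · rw [blk_apply_mem _ h]
  · rw [blk_apply_not_mem _ h, extB_not_mem _ _ h]

private theorem res_extB {φ : A → A'} {B : Set A'} (hB : ∀ a, φ a ∉ B) (c : B × G → ℂ) :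
    res φ (extB B c) = 0 := by
  ext p
  rw [res_apply, extB_not_mem _ _ (hB p.1)]
  rfl

private theorem blk_eq_extB (B : Set A') (v : Rg G A') :
    blk B v = extB B (fun q => v (q.1.1, q.2)) := by
  ext p
  by_cases h : p.1 ∈ B
  · rw [blk_apply_mem _ h, extB_mem _ _ h]
  · rw [blk_apply_not_mem _ h, extB_not_mem _ _ h]

private theorem extB_inj (B : Set A') {c : B × G → ℂ} (h : extB B c = 0) : c = 0 := by
  funext q
  have h1 : extB B c (q.1.1, q.2) = 0 := by
    rw [h]
    rfl
  rw [extB_mem _ _ q.1.2] at h1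
  exact h1

theorem isTaut_act {G : Type} [Group G] [Fintype G] {A : Type} [Fintype A] (g : G) {m : ℕ}
    {x : (Rg G A →L[ℂ] Rg G A) × Rg G A} (hx : IsTaut m x) :
    IsTaut m (actL g ∘L x.1 ∘L actL g⁻¹, act g x.2) := by
  have h1 : ∀ v : Rg G A, act g⁻¹ (act g v) = v := by
    intro v
    rw [← act_mul, inv_mul_cancel, act_one]
  have h2 : ∀ v : Rg G A, act g (act g⁻¹ v) = v := by
    intro v
    rw [← act_mul, mul_inv_cancel, act_one]
  refine ⟨?_, ?_, ?_, ?_⟩
  · intro v
    change act g (x.1 (act g⁻¹ (act g (x.1 (act g⁻¹ v))))) = act g (x.1 (act g⁻¹ v))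
    rw [h1, hx.idem]
  · intro v w
    change inner ℂ (act g (x.1 (act g⁻¹ v))) w = inner ℂ v (act g (x.1 (act g⁻¹ w)))
    have h3 : inner ℂ (act g (x.1 (act g⁻¹ v))) w = inner ℂ (x.1 (act g⁻¹ v)) (act g⁻¹ w) := by
      conv_lhs => rw [← h2 w]
      exact (act g).inner_map_map _ _
    have h4 : inner ℂ v (act g (x.1 (act g⁻¹ w))) = inner ℂ (act g⁻¹ v) (x.1 (act g⁻¹ w)) := by
      conv_lhs => rw [← h2 v]
      exact (act g).inner_map_map _ _
    rw [h3, h4, hx.symm]
  · have h3 : LinearMap.range ((actL g ∘L x.1 ∘L actL g⁻¹ : Rg G A →L[ℂ] Rg G A) :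
        Rg G A →ₗ[ℂ] Rg G A) = (LinearMap.range (x.1 : Rg G A →ₗ[ℂ] Rg G A)).map
          ((act g : Rg G A ≃ₗᵢ[ℂ] Rg G A).toLinearEquiv : Rg G A →ₗ[ℂ] Rg G A) := by
      ext v
      constructor
      · rintro ⟨w, hw⟩
        exact ⟨x.1 (act g⁻¹ w), ⟨act g⁻¹ w, rfl⟩, hw⟩
      · rintro ⟨u, ⟨w, hw⟩, hu⟩
        refine ⟨act g w, ?_⟩
        change act g (x.1 (act g⁻¹ (act g w))) = v
        rw [h1, ← hu, ← hw]
        rfl
    change Module.finrank ℂ (LinearMap.range ((actL g ∘L x.1 ∘L actL g⁻¹ : Rg G A →L[ℂ] Rg G A) :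
        Rg G A →ₗ[ℂ] Rg G A)) = m
    rw [h3, LinearEquiv.finrank_map_eq]
    exact hx.rank
  · change act g (x.1 (act g⁻¹ (act g x.2))) = act g x.2
    rw [h1, hx.mem]

theorem isTaut_stab {φ : A → A'} (hφ : Function.Injective φ) {B : Set A'} (hB : ∀ a, φ a ∉ B)
    {m m' : ℕ} {x : (Rg G A →L[ℂ] Rg G A) × Rg G A} (hx : IsTaut m x) (w : Rg G A')
    (hm : m' = m + Nat.card B * Fintype.card G) :
    IsTaut m' (stabP φ B x.1, ext φ x.2 + blk B w) := by
  classical
  have hQ : ∀ v, stabP φ B x.1 v = ext φ (x.1 (res φ v)) + blk B v := fun v => rfl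
  have hr : ∀ (u : Rg G A) (v : Rg G A'), res φ (ext φ u + blk B v) = u := by
    intro u v
    rw [map_add, res_ext hφ, res_blk hB, add_zero]
  have hb : ∀ (u : Rg G A) (v : Rg G A'), blk B (ext φ u + blk B v) = blk B v := by
    intro u v
    rw [map_add, blk_ext hB, blk_blk, zero_add]
  have hidem : ∀ v, stabP φ B x.1 (stabP φ B x.1 v) = stabP φ B x.1 v := by
    intro v
    rw [hQ v, hQ, hr, hb, hx.idem]
  refine ⟨hidem, ?_, ?_, ?_⟩
  · intro v w
    change inner ℂ (stabP φ B x.1 v) w = inner ℂ v (stabP φ B x.1 w)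
    rw [hQ, hQ, inner_add_left, inner_add_right, inner_ext hφ, hx.symm, inner_res hφ, inner_blk]
  · obtain ⟨Φ, hΦ⟩ : ∃ Φ : (LinearMap.range (x.1 : Rg G A →ₗ[ℂ] Rg G A) × (B × G → ℂ)) →ₗ[ℂ]
        Rg G A', ∀ z, Φ z = ext φ (z.1 : Rg G A) + extB B z.2 :=
      ⟨(((ext φ : Rg G A →L[ℂ] Rg G A') : Rg G A →ₗ[ℂ] Rg G A') ∘ₗ
        (LinearMap.range (x.1 : Rg G A →ₗ[ℂ] Rg G A)).subtype).coprod (extB B), fun z => by
          rw [LinearMap.coprod_apply]
          rfl⟩
    have hinj : Function.Injective Φ := by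
      rw [injective_iff_map_eq_zero]
      rintro ⟨u, c⟩ h0
      rw [hΦ] at h0
      have h3 : (u : Rg G A) = 0 := by
        have h4 := congrArg (res φ) h0
        rw [map_add, res_ext hφ, res_extB hB, add_zero, map_zero] at h4
        exact h4
      have h5 : extB B c = 0 := by
        have h4 := h0
        simp only at h4
        rw [h3, map_zero, zero_add] at h4
        exact h4
      exact Prod.ext (Subtype.ext h3) (extB_inj B h5)
    have hrange : LinearMap.range (stabP φ B x.1 : Rg G A' →ₗ[ℂ] Rg G A') = LinearMap.range Φ := by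
      ext v
      constructor
      · rintro ⟨w', hw⟩
        refine ⟨(⟨x.1 (res φ w'), ⟨res φ w', rfl⟩⟩, fun q => w' (q.1.1, q.2)), ?_⟩
        rw [hΦ, ← hw]
        change _ = stabP φ B x.1 w'
        rw [hQ, blk_eq_extB]
      · rintro ⟨⟨⟨u, ⟨u', hu'⟩⟩, c⟩, hz⟩
        refine ⟨v, ?_⟩
        have hu : x.1 u = u := by
          rw [← hu']
          exact hx.idem u'
        have hv : v = ext φ u + extB B c := by
          rw [← hz, hΦ]
        change stabP φ B x.1 v = v
        have h6 : res φ v = u := by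
          rw [hv, map_add, res_ext hφ, res_extB hB, add_zero]
        have h7 : blk B v = extB B c := by
          rw [hv, map_add, blk_ext hB, blk_extB, zero_add]
        rw [hQ, h6, h7, hu, ← hv]
    change Module.finrank ℂ (LinearMap.range (stabP φ B x.1 : Rg G A' →ₗ[ℂ] Rg G A')) = m'
    rw [hrange, LinearMap.finrank_range_of_inj hinj, Module.finrank_prod, hx.rank,
      Module.finrank_fintype_fun_eq_card, Fintype.card_prod, hm, Nat.card_eq_fintype_card]
  · change stabP φ B x.1 (ext φ x.2 + blk B w) = ext φ x.2 + blk B w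
    rw [hQ, hr, hb, hx.mem]

end EMU
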